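import Pool.Agent.W263.BSD.Lead8

/-! One-sided slow variation of the Birch and Swinnerton-Dyer product and sums of traces. -/

set_option autoImplicit false

namespace Pool.Agent.N586.BP

open MeasureTheory Filter Topology Set Classical
open Pool.Agent.W263.BSD

variable {a b : ℤ}

/-- The primes between `x` and `y`. -/
theorem mertens_short {δ : ℝ} (hδ : 0 < δ) : ∀ᶠ x : ℝ in atTop, ∀ y, x ≤ y → y ≤ x ^ (1 + δ) →
    ∑ p ∈ (Finset.Ioc ⌊x⌋₊ ⌊y⌋₊).filter Nat.Prime, (1 : ℝ) / p ≤ 2 * δ := by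
  obtain ⟨C, hC0, hC⟩ := Pool.Agent.Helper923.HMertens.mertens_ratio
  have h1 : Tendsto (fun x : ℝ => Real.log x - Real.log 2) atTop atTop :=
    tendsto_atTop_add_const_right _ _ Real.tendsto_log_atTop
  have h2 : Tendsto (fun x : ℝ => (1 + δ) * (1 + Real.log 2 / (Real.log x - Real.log 2))) atTop
      (𝓝 ((1 + δ) * (1 + 0))) :=
    (tendsto_const_nhds.add (h1.const_div_atTop _)).const_mul _
  rw [add_zero, mul_one] at h2
  have h3 : Tendsto (fun x : ℝ => Real.log ((1 + δ) * (1 + Real.log 2 / (Real.log x - Real.log 2))) +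
      C / (Real.log x - Real.log 2)) atTop (𝓝 (Real.log (1 + δ) + 0)) :=
    (h2.log (by positivity)).add (h1.const_div_atTop _)
  have h4 : Real.log (1 + δ) + 0 < 2 * δ := by
    have := Real.log_le_sub_one_of_pos (show 0 < 1 + δ by linarith)
    linarith
  filter_upwards [h3.eventually (gt_mem_nhds h4), eventually_ge_atTop 8] with x hx hx8 y hxy hy
  have hx0 : 0 < x := by linarith
  have hf1 : 2 ≤ ⌊x⌋₊ := Nat.le_floor (by push_cast; linarith)
  have hf2 : x / 2 ≤ (⌊x⌋₊ : ℝ) := by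
    have := Nat.lt_floor_add_one x
    linarith
  have hf3 : (0 : ℝ) < ⌊x⌋₊ := by exact_mod_cast (by omega : 0 < ⌊x⌋₊)
  have hl2 : Real.log 2 < 1 := by have := Real.log_two_lt_d9; linarith
  have hl20 : 0 < Real.log 2 := Real.log_pos (by norm_num)
  have hlx : 2 < Real.log x := by
    rw [Real.lt_log_iff_exp_lt hx0]
    have e1 := Real.exp_one_lt_d9
    have e2 : Real.exp 2 = Real.exp 1 * Real.exp 1 := by rw [← Real.exp_add]; norm_num
    have e3 := Real.exp_pos 1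
    rw [e2]
    nlinarith
  have hd : 0 < Real.log x - Real.log 2 := by linarith
  have hlf : Real.log x - Real.log 2 ≤ Real.log ⌊x⌋₊ := by
    rw [← Real.log_div hx0.ne' two_ne_zero]
    exact Real.log_le_log (by positivity) hf2
  have h5 := hC ⌊x⌋₊ ⌊y⌋₊ hf1 (Nat.floor_le_floor hxy)
  have h6 := (abs_le.mp h5).2
  have hy0 : 0 < y := by linarith
  have hfy : (0 : ℝ) < ⌊y⌋₊ := by
    have := Nat.floor_le_floor hxy
    exact_mod_cast (by omega : 0 < ⌊y⌋₊)
  have hly : Real.log ⌊y⌋₊ ≤ (1 + δ) * Real.log x := by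
    rw [← Real.log_rpow hx0]
    exact Real.log_le_log hfy ((Nat.floor_le hy0.le).trans hy)
  have hly0 : 0 < Real.log ⌊y⌋₊ := Real.log_pos (by
    have := Nat.floor_le_floor hxy
    exact_mod_cast (by omega : 1 < ⌊y⌋₊))
  have h7 : Real.log (Real.log ⌊y⌋₊ / Real.log ⌊x⌋₊) ≤
      Real.log ((1 + δ) * (1 + Real.log 2 / (Real.log x - Real.log 2))) := by
    refine Real.log_le_log (div_pos hly0 (by linarith)) ?_
    calc Real.log ⌊y⌋₊ / Real.log ⌊x⌋₊ ≤ ((1 + δ) * Real.log x) / (Real.log x - Real.log 2) :=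
          div_le_div₀ (by positivity) hly hd hlf
      _ = _ := by field_simp; ring
  have h8 : C / Real.log ⌊x⌋₊ ≤ C / (Real.log x - Real.log 2) :=
    div_le_div_of_nonneg_left hC0 hd hlf
  linarith

/-- The bound of Hasse for all large primes. -/
def Hasse (a b : ℤ) : Prop := ∃ D : ℕ, ∀ p : ℕ, p.Prime → D < p →
  |(p : ℝ) - pointCount a b p| ≤ 2 * √p

/-- `∑_{x < p ≤ y} a_p / p` over the good primes -/
noncomputable def tr (a b : ℤ) (x y : ℝ) : ℝ :=
  ∑ p ∈ (Finset.Ioc ⌊x⌋₊ ⌊y⌋₊).filter (GoodPrime a b), ((p : ℝ) - pointCount a b p) / p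

theorem log_sub {x y : ℝ} (h : x ≤ y) :
    Real.log (bsdProduct a b y) - Real.log (bsdProduct a b x) =
      ∑ p ∈ (Finset.Ioc ⌊x⌋₊ ⌊y⌋₊).filter (GoodPrime a b),
        Real.log (((pointCount a b p : ℝ) + 1) / p) := by
  have h1 : bsdProduct a b y = bsdProduct a b x *
      ∏ p ∈ (Finset.Ioc ⌊x⌋₊ ⌊y⌋₊).filter (GoodPrime a b),
        (((pointCount a b p : ℝ) + 1) / p) := by
    unfold bsdProduct
    rw [← Finset.prod_union]
    · refine Finset.prod_congr ?_ fun _ _ => rfl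
      rw [← Finset.filter_union]
      congr 1
      ext p
      have := Nat.floor_le_floor h
      simp only [Finset.mem_range, Finset.mem_union, Finset.mem_Ioc]
      omega
    · rw [Finset.disjoint_left]
      intro p hp hp2
      have h3 := (Finset.mem_filter.mp hp).1
      have h4 := (Finset.mem_filter.mp hp2).1
      rw [Finset.mem_range] at h3
      rw [Finset.mem_Ioc] at h4
      omega
  have h2 : ∀ p ∈ (Finset.Ioc ⌊x⌋₊ ⌊y⌋₊).filter (GoodPrime a b),
      (((pointCount a b p : ℝ) + 1) / p) ≠ 0 := by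
    intro p hp
    have hp1 : 0 < (p : ℝ) := by exact_mod_cast (Finset.mem_filter.mp hp).2.1.pos
    positivity
  rw [h1, Real.log_mul (bsdProduct_pos _).ne' (Finset.prod_ne_zero_iff.mpr h2),
    Real.log_prod h2]
  ring

/-- one factor -/
theorem one_factor {p : ℕ} (hp : 100 ≤ p) (h : |(p : ℝ) - pointCount a b p| ≤ 2 * √p) :
    |Real.log (((pointCount a b p : ℝ) + 1) / p) + ((p : ℝ) - pointCount a b p) / p| ≤ 20 / p := by
  have hp0 : (0 : ℝ) < p := by exact_mod_cast (by omega : 0 < p)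
  have hp1 : (100 : ℝ) ≤ p := by exact_mod_cast hp
  set s := √(p : ℝ) with hs
  have hs2 : s * s = p := Real.mul_self_sqrt hp0.le
  have hs10 : 10 ≤ s := by
    rw [hs]
    exact Real.le_sqrt_of_sq_le (by linarith)
  set A : ℝ := (p : ℝ) - pointCount a b p with hA
  have e1 : ((pointCount a b p : ℝ) + 1) / p = 1 - (A - 1) / p := by
    rw [hA]; field_simp; ring
  set t : ℝ := (A - 1) / p with ht
  have hA1 : |A - 1| ≤ 3 * s := by
    have := abs_sub A 1
    rw [abs_one] at this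
    linarith
  have ht1 : |t| ≤ 3 / s := by
    rw [ht, abs_div, abs_of_pos hp0, div_le_div_iff₀ hp0 (by linarith), ← hs2]
    nlinarith
  have ht2 : |t| ≤ 3 / 10 := ht1.trans (div_le_div_of_nonneg_left (by norm_num) (by norm_num) hs10)
  have e2 : |Real.log (1 - t) + t| ≤ 19 / p := by
    have h1 := Real.abs_log_sub_add_sum_range_le (x := t) (by linarith) 1
    rw [Finset.sum_range_one] at h1
    simp only [zero_add, pow_one, Nat.cast_zero, div_one] at h1
    rw [add_comm] at h1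
    refine h1.trans ?_
    have h2 : |t| ^ 2 ≤ 9 / p := by
      have : |t| ^ 2 ≤ (3 / s) ^ 2 := pow_le_pow_left₀ (abs_nonneg _) ht1 2
      refine this.trans (le_of_eq ?_)
      rw [div_pow, pow_two s, hs2]
      norm_num
    rw [show (1 + 1 : ℕ) = 2 from rfl]
    rw [div_le_div_iff₀ (by linarith) hp0]
    rw [le_div_iff₀ hp0] at h2
    nlinarith
  have e3 : Real.log (((pointCount a b p : ℝ) + 1) / p) + A / p =
      (Real.log (1 - t) + t) + 1 / p := by
    rw [e1, ht]; ring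
  rw [e3]
  have h4 : |(1 : ℝ) / p| = 1 / p := abs_of_pos (by positivity)
  calc _ ≤ |Real.log (1 - t) + t| + |(1 : ℝ) / p| := abs_add_le _ _
    _ ≤ 19 / p + 1 / p := by rw [h4]; linarith
    _ = 20 / p := by ring

/-- the logarithm of the quotient and the sum of the traces -/
theorem log_tr (hH : Hasse a b) {δ : ℝ} (hδ : 0 < δ) : ∀ᶠ x : ℝ in atTop, ∀ y, x ≤ y →
    y ≤ x ^ (1 + δ) →
    |Real.log (bsdProduct a b y) - Real.log (bsdProduct a b x) + tr a b x y| ≤ 40 * δ := by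
  obtain ⟨D, hD⟩ := hH
  filter_upwards [mertens_short hδ, eventually_ge_atTop (max 100 (D : ℝ))] with x hx hxD y h1 h2
  have h3 := hx y h1 h2
  rw [log_sub h1]
  unfold tr
  rw [← Finset.sum_add_distrib]
  have hx100 : 100 ≤ x := (le_max_left _ _).trans hxD
  have hxD' : (D : ℝ) ≤ x := (le_max_right _ _).trans hxD
  calc _ ≤ ∑ p ∈ (Finset.Ioc ⌊x⌋₊ ⌊y⌋₊).filter (GoodPrime a b),
        |Real.log (((pointCount a b p : ℝ) + 1) / p) + ((p : ℝ) - pointCount a b p) / p| :=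
        Finset.abs_sum_le_sum_abs _ _
    _ ≤ ∑ p ∈ (Finset.Ioc ⌊x⌋₊ ⌊y⌋₊).filter (GoodPrime a b), 20 * ((1 : ℝ) / p) := by
        refine Finset.sum_le_sum fun p hp => ?_
        obtain ⟨h4, h5⟩ := Finset.mem_filter.mp hp
        have h6 := (Finset.mem_Ioc.mp h4).1
        have h7 : x < p := (Nat.floor_lt (by linarith)).mp h6
        refine (one_factor ?_ (hD p h5.1 ?_)).trans (le_of_eq (by ring))
        · have : (100 : ℝ) ≤ p := by linarith
          exact_mod_cast this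
        · have : (D : ℝ) < p := by linarith
          exact_mod_cast this
    _ ≤ ∑ p ∈ (Finset.Ioc ⌊x⌋₊ ⌊y⌋₊).filter Nat.Prime, 20 * ((1 : ℝ) / p) := by
        refine Finset.sum_le_sum_of_subset_of_nonneg ?_ fun p _ _ => by positivity
        intro p hp
        obtain ⟨h4, h5⟩ := Finset.mem_filter.mp hp
        exact Finset.mem_filter.mpr ⟨h4, h5.1⟩
    _ = 20 * ∑ p ∈ (Finset.Ioc ⌊x⌋₊ ⌊y⌋₊).filter Nat.Prime, (1 : ℝ) / p := by
        rw [Finset.mul_sum]
    _ ≤ 40 * δ := by linarith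

theorem log_le_iff {c x y : ℝ} (hc : 0 < c) :
    bsdProduct a b y ≤ c * bsdProduct a b x ↔
      Real.log (bsdProduct a b y) - Real.log (bsdProduct a b x) ≤ Real.log c := by
  rw [← Real.log_le_log_iff (bsdProduct_pos _) (mul_pos hc (bsdProduct_pos _)),
    Real.log_mul hc.ne' (bsdProduct_pos _).ne']
  constructor <;> intro h <;> linarith

/-- upper slow variation -/
def SlowUp (a b : ℤ) : Prop := ∀ ε : ℝ, 0 < ε → ∃ δ : ℝ, 0 < δ ∧ ∀ᶠ x : ℝ in atTop,
  ∀ y, x ≤ y → y ≤ x ^ (1 + δ) → bsdProduct a b y ≤ (1 + ε) * bsdProduct a b x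

/-- lower slow variation -/
def SlowDown (a b : ℤ) : Prop := ∀ ε : ℝ, 0 < ε → ∃ δ : ℝ, 0 < δ ∧ ∀ᶠ x : ℝ in atTop,
  ∀ y, x ≤ y → y ≤ x ^ (1 + δ) → bsdProduct a b x ≤ (1 + ε) * bsdProduct a b y

/-- the sums of the traces are not very negative -/
def TrUp (a b : ℤ) : Prop := ∀ ε : ℝ, 0 < ε → ∃ δ : ℝ, 0 < δ ∧ ∀ᶠ x : ℝ in atTop,
  ∀ y, x ≤ y → y ≤ x ^ (1 + δ) → -ε ≤ tr a b x y

/-- the sums of the traces are not very positive -/
def TrDown (a b : ℤ) : Prop := ∀ ε : ℝ, 0 < ε → ∃ δ : ℝ, 0 < δ ∧ ∀ᶠ x : ℝ in atTop,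
  ∀ y, x ≤ y → y ≤ x ^ (1 + δ) → tr a b x y ≤ ε

theorem rpow_mono {x δ δ' : ℝ} (hx : 1 ≤ x) (h : δ ≤ δ') : x ^ (1 + δ) ≤ x ^ (1 + δ') :=
  Real.rpow_le_rpow_of_exponent_le hx (by linarith)

theorem slowUp_iff (hH : Hasse a b) : SlowUp a b ↔ TrUp a b := by
  constructor
  · intro h ε hε
    obtain ⟨δ, hδ, h1⟩ := h (ε / 2) (by linarith)
    have hm : 0 < min δ (ε / 80) := by positivity
    refine ⟨min δ (ε / 80), hm, ?_⟩
    filter_upwards [h1, log_tr hH hm, eventually_ge_atTop 1] with x h2 h3 h4 y h5 h6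
    have h7 := h2 y h5 (h6.trans (rpow_mono h4 (min_le_left _ _)))
    rw [log_le_iff (by linarith)] at h7
    have h8 := (abs_le.mp (h3 y h5 h6)).1
    have h9 := min_le_right δ (ε / 80)
    have h10 := Real.log_le_sub_one_of_pos (show 0 < 1 + ε / 2 by linarith)
    linarith
  · intro h ε hε
    have hl : 0 < Real.log (1 + ε) := Real.log_pos (by linarith)
    obtain ⟨δ, hδ, h1⟩ := h (Real.log (1 + ε) / 2) (by linarith)
    have hm : 0 < min δ (Real.log (1 + ε) / 80) := by positivity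
    refine ⟨min δ (Real.log (1 + ε) / 80), hm, ?_⟩
    filter_upwards [h1, log_tr hH hm, eventually_ge_atTop 1] with x h2 h3 h4 y h5 h6
    have h7 := h2 y h5 (h6.trans (rpow_mono h4 (min_le_left _ _)))
    rw [log_le_iff (by linarith)]
    have h8 := (abs_le.mp (h3 y h5 h6)).2
    have h9 := min_le_right δ (Real.log (1 + ε) / 80)
    linarith

theorem slowDown_iff (hH : Hasse a b) : SlowDown a b ↔ TrDown a b := by
  constructor
  · intro h ε hε
    obtain ⟨δ, hδ, h1⟩ := h (ε / 2) (by linarith)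
    have hm : 0 < min δ (ε / 80) := by positivity
    refine ⟨min δ (ε / 80), hm, ?_⟩
    filter_upwards [h1, log_tr hH hm, eventually_ge_atTop 1] with x h2 h3 h4 y h5 h6
    have h7 := h2 y h5 (h6.trans (rpow_mono h4 (min_le_left _ _)))
    rw [log_le_iff (by linarith)] at h7
    have h8 := (abs_le.mp (h3 y h5 h6)).2
    have h9 := min_le_right δ (ε / 80)
    have h10 := Real.log_le_sub_one_of_pos (show 0 < 1 + ε / 2 by linarith)
    linarith
  · intro h ε hε
    have hl : 0 < Real.log (1 + ε) := Real.log_pos (by linarith)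
    obtain ⟨δ, hδ, h1⟩ := h (Real.log (1 + ε) / 2) (by linarith)
    have hm : 0 < min δ (Real.log (1 + ε) / 80) := by positivity
    refine ⟨min δ (Real.log (1 + ε) / 80), hm, ?_⟩
    filter_upwards [h1, log_tr hH hm, eventually_ge_atTop 1] with x h2 h3 h4 y h5 h6
    have h7 := h2 y h5 (h6.trans (rpow_mono h4 (min_le_left _ _)))
    rw [log_le_iff (by linarith)]
    have h8 := (abs_le.mp (h3 y h5 h6)).1
    have h9 := min_le_right δ (Real.log (1 + ε) / 80)
    linarith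

/-- upper doubling -/
def DbUp (a b : ℤ) : Prop := ∃ K : ℝ, ∀ᶠ x : ℝ in atTop,
  ∀ y, x ≤ y → y ≤ x ^ 2 → bsdProduct a b y ≤ K * bsdProduct a b x

/-- lower doubling -/
def DbDown (a b : ℤ) : Prop := ∃ K : ℝ, ∀ᶠ x : ℝ in atTop,
  ∀ y, x ≤ y → y ≤ x ^ 2 → bsdProduct a b x ≤ K * bsdProduct a b y

def DtUp (a b : ℤ) : Prop := ∃ K : ℝ, ∀ᶠ x : ℝ in atTop,
  ∀ y, x ≤ y → y ≤ x ^ 2 → -K ≤ tr a b x y

def DtDown (a b : ℤ) : Prop := ∃ K : ℝ, ∀ᶠ x : ℝ in atTop,
  ∀ y, x ≤ y → y ≤ x ^ 2 → tr a b x y ≤ K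

theorem pow_two_rpow (x : ℝ) : x ^ 2 = x ^ (1 + (1 : ℝ)) := by
  rw [show (1 : ℝ) + 1 = ((2 : ℕ) : ℝ) by norm_num, Real.rpow_natCast]

theorem pos_of_le {K : ℝ} {x y : ℝ} (h : bsdProduct a b y ≤ K * bsdProduct a b x) : 0 < K := by
  by_contra hneg
  push Not at hneg
  have := mul_nonpos_of_nonpos_of_nonneg hneg (bsdProduct_pos (a := a) (b := b) x).le
  linarith [bsdProduct_pos (a := a) (b := b) y]

theorem dbUp_iff (hH : Hasse a b) : DbUp a b ↔ DtUp a b := by
  constructor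
  · rintro ⟨K, h⟩
    refine ⟨Real.log K + 40, ?_⟩
    filter_upwards [h, log_tr hH one_pos] with x h1 h2 y h3 h4
    have h5 := h1 y h3 h4
    rw [log_le_iff (pos_of_le h5)] at h5
    have h6 := (abs_le.mp (h2 y h3 (by rwa [← pow_two_rpow]))).1
    linarith
  · rintro ⟨K, h⟩
    refine ⟨Real.exp (K + 40), ?_⟩
    filter_upwards [h, log_tr hH one_pos] with x h1 h2 y h3 h4
    have h5 := h1 y h3 h4
    rw [log_le_iff (Real.exp_pos _), Real.log_exp]
    have h6 := (abs_le.mp (h2 y h3 (by rwa [← pow_two_rpow]))).2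
    linarith

theorem dbDown_iff (hH : Hasse a b) : DbDown a b ↔ DtDown a b := by
  constructor
  · rintro ⟨K, h⟩
    refine ⟨Real.log K + 40, ?_⟩
    filter_upwards [h, log_tr hH one_pos] with x h1 h2 y h3 h4
    have h5 := h1 y h3 h4
    rw [log_le_iff (pos_of_le h5)] at h5
    have h6 := (abs_le.mp (h2 y h3 (by rwa [← pow_two_rpow]))).2
    linarith
  · rintro ⟨K, h⟩
    refine ⟨Real.exp (K + 40), ?_⟩
    filter_upwards [h, log_tr hH one_pos] with x h1 h2 y h3 h4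
    have h5 := h1 y h3 h4
    rw [log_le_iff (Real.exp_pos _), Real.log_exp]
    have h6 := (abs_le.mp (h2 y h3 (by rwa [← pow_two_rpow]))).1
    linarith

/-- exact order `(log x)^ρ` with a real number `ρ` -/
def Ord (a b : ℤ) (ρ : ℝ) : Prop := ∃ c C : ℝ, 0 < c ∧ ∀ᶠ x : ℝ in atTop,
  c * Real.log x ^ ρ ≤ bsdProduct a b x ∧ bsdProduct a b x ≤ C * Real.log x ^ ρ

theorem ord_unique {ρ σ : ℝ} (h1 : Ord a b ρ) (h2 : Ord a b σ) : ρ ≤ σ := by
  by_contra hlt
  push Not at hlt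
  obtain ⟨c, C, hc, h3⟩ := h1
  obtain ⟨c', C', hc', h4⟩ := h2
  have h5 : Tendsto (fun x : ℝ => Real.log x ^ (ρ - σ)) atTop atTop :=
    (tendsto_rpow_atTop (by linarith)).comp Real.tendsto_log_atTop
  obtain ⟨x, h6, h7, h8, h9⟩ := (h3.and (h4.and ((h5.eventually_gt_atTop (C' / c)).and
    (eventually_gt_atTop 1)))).exists
  have hl : 0 < Real.log x := Real.log_pos h9
  rw [Real.rpow_sub hl, lt_div_iff₀ (Real.rpow_pos_of_pos hl _)] at h8
  have h10 := h6.1.trans h7.2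
  rw [div_mul_eq_mul_div, div_lt_iff₀ hc] at h8
  linarith

theorem log_ratio {ρ x y t : ℝ} (hx : 1 < x) (hxy : x ≤ y) (ht : 1 ≤ t) (hy : Real.log y ≤ t * Real.log x) :
    Real.log y ^ ρ ≤ t ^ |ρ| * Real.log x ^ ρ ∧ Real.log x ^ ρ ≤ t ^ |ρ| * Real.log y ^ ρ := by
  have hl : 0 < Real.log x := Real.log_pos hx
  have hly : Real.log x ≤ Real.log y := Real.log_le_log (by linarith) hxy
  have hly0 : 0 < Real.log y := by linarith
  have ht0 : 0 < t := by linarith
  rcases le_total 0 ρ with h | h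
  · rw [abs_of_nonneg h]
    constructor
    · rw [← Real.mul_rpow ht0.le hl.le]
      exact Real.rpow_le_rpow hly0.le hy h
    · have h1 : Real.log x ^ ρ ≤ Real.log y ^ ρ := Real.rpow_le_rpow hl.le hly h
      have h2 : 1 ≤ t ^ ρ := Real.one_le_rpow ht h
      have h3 := Real.rpow_pos_of_pos hly0 ρ
      nlinarith
  · rw [abs_of_nonpos h]
    constructor
    · have h1 : Real.log y ^ ρ ≤ Real.log x ^ ρ := Real.rpow_le_rpow_of_nonpos hl hly h
      have h2 : 1 ≤ t ^ (-ρ) := Real.one_le_rpow ht (by linarith)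
      have h3 := Real.rpow_pos_of_pos hl ρ
      nlinarith
    · have h1 : (t * Real.log x) ^ ρ ≤ Real.log y ^ ρ := Real.rpow_le_rpow_of_nonpos hly0 hy h
      rw [Real.mul_rpow ht0.le hl.le] at h1
      rw [Real.rpow_neg ht0.le, inv_mul_eq_div, le_div_iff₀ (Real.rpow_pos_of_pos ht0 _)]
      linarith

theorem dbUp_of_ord {ρ : ℝ} (h : Ord a b ρ) : DbUp a b := by
  obtain ⟨c, C, hc, h⟩ := h
  obtain ⟨X, hX⟩ := eventually_atTop.mp h
  refine ⟨|C| * 2 ^ |ρ| / c, ?_⟩
  filter_upwards [eventually_ge_atTop (max X 2)] with x hx y h1 h2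
  have hx2 : 2 ≤ x := (le_max_right _ _).trans hx
  have hxX : X ≤ x := (le_max_left _ _).trans hx
  have e1 := (hX x hxX).1
  have e2 := (hX y (hxX.trans h1)).2
  have hly : Real.log y ≤ 2 * Real.log x := by
    have := Real.log_le_log (by linarith) h2
    rwa [Real.log_pow] at this
  have e3 := (log_ratio (ρ := ρ) (by linarith) h1 one_le_two hly).1
  have e4 : 0 < Real.log x := Real.log_pos (by linarith)
  have e5 : 0 < Real.log y := Real.log_pos (by linarith)
  calc bsdProduct a b y ≤ C * Real.log y ^ ρ := e2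
    _ ≤ |C| * (2 ^ |ρ| * Real.log x ^ ρ) :=
        mul_le_mul (le_abs_self C) e3 (by positivity) (abs_nonneg _)
    _ = |C| * 2 ^ |ρ| / c * (c * Real.log x ^ ρ) := by field_simp
    _ ≤ |C| * 2 ^ |ρ| / c * bsdProduct a b x := by gcongr

/-- asymptotics `A (log x)^ρ` with `A > 0` -/
def Asy (a b : ℤ) (ρ A : ℝ) : Prop :=
  Tendsto (fun x : ℝ => bsdProduct a b x / Real.log x ^ ρ) atTop (𝓝 A)

theorem ord_of_asy {ρ A : ℝ} (hA : 0 < A) (h : Asy a b ρ A) : Ord a b ρ := by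
  refine ⟨A / 2, 2 * A, by positivity, ?_⟩
  filter_upwards [h.eventually (lt_mem_nhds (show A / 2 < A by linarith)),
    h.eventually (gt_mem_nhds (show A < 2 * A by linarith)), eventually_gt_atTop 1] with x h1 h2 h3
  have hl : 0 < Real.log x ^ ρ := Real.rpow_pos_of_pos (Real.log_pos h3) _
  rw [lt_div_iff₀ hl] at h1
  rw [div_lt_iff₀ hl] at h2
  exact ⟨h1.le, h2.le⟩

theorem slowUp_of_asy {ρ A : ℝ} (hA : 0 < A) (h : Asy a b ρ A) : SlowUp a b := by
  intro ε hε
  have hl : 0 < Real.log (1 + ε) := Real.log_pos (by linarith)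
  have h1 : Tendsto (fun x : ℝ => Real.log (bsdProduct a b x / Real.log x ^ ρ)) atTop
      (𝓝 (Real.log A)) := h.log hA.ne'
  obtain ⟨X, hX⟩ := eventually_atTop.mp ((Metric.tendsto_nhds.mp h1) (Real.log (1 + ε) / 4)
    (by linarith))
  have hd : 0 < Real.log (1 + ε) / (2 * (|ρ| + 1)) := by positivity
  refine ⟨Real.log (1 + ε) / (2 * (|ρ| + 1)), hd, ?_⟩
  set δ := Real.log (1 + ε) / (2 * (|ρ| + 1)) with hδ
  filter_upwards [eventually_ge_atTop (max X 2)] with x hx y h2 h3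
  have hx2 : 2 ≤ x := (le_max_right _ _).trans hx
  have hxX : X ≤ x := (le_max_left _ _).trans hx
  have hlx : 0 < Real.log x := Real.log_pos (by linarith)
  have hly : 0 < Real.log y := Real.log_pos (by linarith)
  have hlyx : Real.log y ≤ (1 + δ) * Real.log x := by
    rw [← Real.log_rpow (by linarith)]
    exact Real.log_le_log (by linarith) h3
  have e1 := hX x hxX
  have e2 := hX y (hxX.trans h2)
  rw [Real.dist_eq, Real.log_div (bsdProduct_pos _).ne' (Real.rpow_pos_of_pos hlx _).ne'] at e1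
  rw [Real.dist_eq, Real.log_div (bsdProduct_pos _).ne' (Real.rpow_pos_of_pos hly _).ne'] at e2
  have e3 := (log_ratio (ρ := ρ) (by linarith) h2 (by linarith) hlyx).1
  have e4 := Real.log_le_log (Real.rpow_pos_of_pos hly _) e3
  rw [Real.log_mul (by positivity) (by positivity), Real.log_rpow (show 0 < 1 + δ by linarith)] at e4
  have e5 := Real.log_le_sub_one_of_pos (show 0 < 1 + δ by linarith)
  have e6 : |ρ| * Real.log (1 + δ) ≤ Real.log (1 + ε) / 2 := by
    have : |ρ| * Real.log (1 + δ) ≤ (|ρ| + 1) * δ :=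
      mul_le_mul (by linarith) (by linarith) (Real.log_nonneg (by linarith)) (by positivity)
    refine this.trans (le_of_eq ?_)
    rw [hδ]; field_simp
  rw [log_le_iff (by linarith)]
  have e7 := abs_lt.mp e1
  have e8 := abs_lt.mp e2
  linarith [e7.1, e7.2, e8.1, e8.2]

/-- Goldfeld's constant -/
noncomputable def TT (F : ℂ → ℂ) (r : ℕ) : ℝ :=
  √2 * (Real.exp (r * Real.eulerMascheroniConstant) / leadAbs F r)

/-- **The criteria for the asymptotic formula.** -/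
theorem main_asy (hΔ : 4 * a ^ 3 + 27 * b ^ 2 ≠ 0) (hrs : Tendsto (rsSum a b) atTop (𝓝 0))
    (hH : Hasse a b) {F : ℂ → ℂ} (hF : IsLSeries a b F) {r : ℕ} (hr : analyticOrderAt F 1 = r)
    (ρ : ℝ) : List.TFAE [
      ∃ A : ℝ, 0 < A ∧ Asy a b ρ A,
      ρ = r ∧ Asy a b ρ (TT F r),
      ρ = r ∧ SlowUp a b,
      ρ = r ∧ (∀ s : ℝ, 1 < s → F s ≠ 0) ∧ SlowDown a b,
      ρ = r ∧ TrUp a b,
      ρ = r ∧ (∀ s : ℝ, 1 < s → F s ≠ 0) ∧ TrDown a b] := by
  obtain ⟨hpos, _⟩ := lead_limit hF.1 hr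
  have hT : 0 < TT F r := by unfold TT; positivity
  have key := lead_tfae hF hr
  have k13 := key.out 0 2
  have k14 := key.out 0 3
  have hP := product_iff_star hΔ hrs r (Real.exp (r * Real.eulerMascheroniConstant) / leadAbs F r)
  have hasy : Asy a b r (TT F r) ↔ Tendsto (fun x : ℝ => bsdStar a b x / (Real.log x) ^ r) atTop
      (𝓝 (Real.exp (r * Real.eulerMascheroniConstant) / leadAbs F r)) := by
    rw [← hP]
    unfold Asy TT
    simp only [Real.rpow_natCast]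
  tfae_have 2 → 1 := fun h => ⟨_, hT, h.2⟩
  tfae_have 1 → 3 := by
    rintro ⟨A, hA, h⟩
    have h1 := slowUp_of_asy hA h
    have h2 := ord_of_asy hT (hasy.mpr (k13.mpr h1))
    have h3 := ord_of_asy hA h
    exact ⟨le_antisymm (ord_unique h3 h2) (ord_unique h2 h3), h1⟩
  tfae_have 3 → 2 := by
    rintro ⟨h1, h2⟩
    refine ⟨h1, ?_⟩
    rw [h1]
    exact hasy.mpr (k13.mpr h2)
  tfae_have 3 ↔ 4 := by
    constructor
    · rintro ⟨h1, h2⟩
      exact ⟨h1, k14.mp (k13.mpr h2)⟩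
    · rintro ⟨h1, h2⟩
      exact ⟨h1, k13.mp (k14.mpr h2)⟩
  tfae_have 3 ↔ 5 := and_congr_right fun _ => slowUp_iff hH
  tfae_have 4 ↔ 6 := and_congr_right fun _ => and_congr_right fun _ => slowDown_iff hH
  tfae_finish

theorem ord_iff (r : ℕ) : Ord a b r ↔ ∃ c C : ℝ, 0 < c ∧ ∀ᶠ x : ℝ in atTop,
    c * (Real.log x) ^ r ≤ bsdProduct a b x ∧ bsdProduct a b x ≤ C * (Real.log x) ^ r := by
  unfold Ord
  simp only [Real.rpow_natCast]

/-- **The criteria for the exact order.** -/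
theorem main_ord (hH : Hasse a b) {F : ℂ → ℂ} (hF : IsLSeries a b F) {r : ℕ}
    (hr : analyticOrderAt F 1 = r) (ρ : ℝ) : List.TFAE [
      Ord a b ρ,
      ρ = r ∧ DbUp a b,
      ρ = r ∧ (∀ s : ℝ, 1 < s → F s ≠ 0) ∧ DbDown a b,
      ρ = r ∧ DtUp a b,
      ρ = r ∧ (∀ s : ℝ, 1 < s → F s ≠ 0) ∧ DtDown a b] := by
  have key := order_tfae hF hr
  have k12 := key.out 0 1
  have k13 := key.out 0 2
  tfae_have 1 → 2 := by
    intro h
    have h1 := dbUp_of_ord h
    have h2 : Ord a b r := (ord_iff r).mpr (k12.mpr h1)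
    exact ⟨le_antisymm (ord_unique h h2) (ord_unique h2 h), h1⟩
  tfae_have 2 → 1 := by
    rintro ⟨h1, h2⟩
    rw [h1]
    exact (ord_iff r).mpr (k12.mpr h2)
  tfae_have 2 ↔ 3 := and_congr_right fun _ => k12.symm.trans k13
  tfae_have 2 ↔ 4 := and_congr_right fun _ => dbUp_iff hH
  tfae_have 3 ↔ 5 := and_congr_right fun _ => and_congr_right fun _ => dbDown_iff hH
  tfae_finish

theorem zero_free {F : ℂ → ℂ} (hF : IsLSeries a b F) {r : ℕ}
    (hr : analyticOrderAt F 1 = r) (h : DbUp a b) {s : ℂ} (hs : 1 < s.re) : F s ≠ 0 := by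
  obtain ⟨c, C, _, h1⟩ := ((order_tfae hF hr).out 0 1).mpr h
  exact no_zeros_of_order hF (h1.mono fun x hx => hx.2) hs

end Pool.Agent.N586.BP
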